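import Pool.Agent.Helper35.SHR.MAIN

set_option autoImplicit false

open Filter Topology

namespace Pool.Agent.Results.MP_0dfa80_co.GrowthRate

/-- The subword of `s` formed by the positions in `A`, in increasing order. -/
def subword {m : ℕ} (s : Fin m → Fin 3) (A : Finset (Fin m)) : List (Fin 3) :=
  ((List.finRange m).filter (· ∈ A)).map s

/-- A word is a shuffle square if its positions split into two disjoint sets with the same
subword. -/
def IsShuffleSquare {m : ℕ} (s : Fin m → Fin 3) : Prop :=
  ∃ A : Finset (Fin m), subword s A = subword s Aᶜ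

/-- The ternary shuffle squares of semi-length `n`. -/
def S3 (n : ℕ) : Set (Fin (2 * n) → Fin 3) := {s | IsShuffleSquare s}

/-- The growth rate of the number of ternary shuffle squares exists and is at least `8.23`. -/
theorem result : ∃ L : ℝ, 8.23 ≤ L ∧
    Tendsto (fun n : ℕ => ((S3 n).ncard : ℝ) ^ (1 / (n : ℝ))) atTop (𝓝 L) :=
  SHR.main

end Pool.Agent.Results.MP_0dfa80_co.GrowthRate
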